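import Pool.Agent.W261.QJ.Stm

/-!
# Project QJ, part FILL: filling a compact plane set
-/

set_option autoImplicit false
open Filter Topology Set Metric

namespace Pool.Agent.W924.QJ

open Pool.Agent.W261.QJ

theorem ext_preconn (M : ℝ) (hM : 0 ≤ M) : IsPreconnected {z : ℂ | M < ‖z‖} := by
  have h1 : IsPreconnected (sphere (0 : ℂ) 1) :=
    isPreconnected_sphere (by rw [Complex.rank_real_complex]; exact Nat.one_lt_ofNat) 0 1
  have h2 : IsPreconnected ((Ioi M) ×ˢ (sphere (0 : ℂ) 1)) := isPreconnected_Ioi.prod h1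
  have h3 : IsPreconnected ((fun p : ℝ × ℂ => p.1 • p.2) '' ((Ioi M) ×ˢ (sphere (0 : ℂ) 1))) :=
    h2.image _ (by fun_prop)
  have h4 : {z : ℂ | M < ‖z‖} =
      (fun p : ℝ × ℂ => p.1 • p.2) '' ((Ioi M) ×ˢ (sphere (0 : ℂ) 1)) := by
    ext z
    constructor
    · intro hz
      have hz' : M < ‖z‖ := hz
      have hz1 : 0 < ‖z‖ := lt_of_le_of_lt hM hz'
      have hz0 : ‖z‖ ≠ 0 := hz1.ne'
      refine ⟨(‖z‖, ‖z‖⁻¹ • z), ⟨hz', ?_⟩, ?_⟩
      · rw [mem_sphere_zero_iff_norm, norm_smul, norm_inv, norm_norm, inv_mul_cancel₀ hz0]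
      · simp only [smul_smul]
        rw [mul_inv_cancel₀ hz0, one_smul]
    · rintro ⟨⟨r, w⟩, ⟨hr, hw⟩, rfl⟩
      rw [mem_sphere_zero_iff_norm] at hw
      have hr' : M < r := hr
      change M < ‖r • w‖
      rw [norm_smul, hw, mul_one, Real.norm_of_nonneg (hM.trans hr'.le)]
      exact hr'
  rw [h4]
  exact h3

theorem FILL : S_fill := by
  intro L hL
  obtain ⟨M0, hM0⟩ := hL.isBounded.subset_closedBall (0 : ℂ)
  set M : ℝ := max M0 0 with hMdef
  have hM : 0 ≤ M := le_max_right _ _
  have hLM : ∀ z ∈ L, ‖z‖ ≤ M := by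
    intro z hz
    have := hM0 hz
    rw [mem_closedBall_zero_iff] at this
    exact this.trans (le_max_left _ _)
  have hLo : IsOpen Lᶜ := hL.isClosed.isOpen_compl
  have hE : {z : ℂ | M < ‖z‖} ⊆ Lᶜ := by
    intro z hz hzL
    exact absurd (hLM z hzL) (not_le.2 hz)
  let z0 : ℂ := ((M + 1 : ℝ) : ℂ)
  have hz0 : z0 ∈ {z : ℂ | M < ‖z‖} := by
    change M < ‖((M + 1 : ℝ) : ℂ)‖
    rw [Complex.norm_real, Real.norm_of_nonneg (by linarith)]
    linarith
  set Om : Set ℂ := connectedComponentIn Lᶜ z0 with hOm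
  have hOmo : IsOpen Om := hLo.connectedComponentIn
  have hEOm : {z : ℂ | M < ‖z‖} ⊆ Om :=
    (ext_preconn M hM).subset_connectedComponentIn hz0 hE
  have hOmL : Om ⊆ Lᶜ := connectedComponentIn_subset _ _
  refine ⟨Omᶜ, fun z hz hz' => hOmL hz' hz, ?_, ?_, ?_⟩
  · refine isCompact_of_isClosed_isBounded hOmo.isClosed_compl ?_
    refine isBounded_closedBall.subset (?_ : Omᶜ ⊆ closedBall (0 : ℂ) M)
    intro z hz
    rw [mem_closedBall_zero_iff]
    by_contra hcon
    exact hz (hEOm (not_le.1 hcon))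
  · rw [compl_compl]
    exact isConnected_connectedComponentIn_iff.2 (hE hz0)
  · intro z hz hzL
    have hzV : z ∈ connectedComponentIn Lᶜ z := mem_connectedComponentIn hzL
    have hdisj : ∀ w, w ∈ connectedComponentIn Lᶜ z → w ∉ Om := by
      intro w hw hw'
      have h1 : connectedComponentIn Lᶜ z = connectedComponentIn Lᶜ w :=
        connectedComponentIn_eq hw
      have h2 : Om = connectedComponentIn Lᶜ w := connectedComponentIn_eq hw'
      apply hz
      rw [h2, ← h1]
      exact hzV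
    refine ⟨connectedComponentIn Lᶜ z, hLo.connectedComponentIn,
      isConnected_connectedComponentIn_iff.2 hzL, ?_, hzV, ?_, ?_⟩
    · refine isBounded_closedBall.subset
        (?_ : connectedComponentIn Lᶜ z ⊆ closedBall (0 : ℂ) M)
      intro w hw
      rw [mem_closedBall_zero_iff]
      by_contra hcon
      exact hdisj w hw (hEOm (not_le.1 hcon))
    · rw [Set.disjoint_left]
      exact fun w hw hwL => connectedComponentIn_subset _ _ hw hwL
    · intro q hq
      rw [hLo.connectedComponentIn.frontier_eq] at hq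
      by_contra hqL
      have h1 : IsOpen (connectedComponentIn Lᶜ q) := hLo.connectedComponentIn
      have h2 : q ∈ connectedComponentIn Lᶜ q := mem_connectedComponentIn hqL
      obtain ⟨w, hw1, hw2⟩ := mem_closure_iff.1 hq.1 _ h1 h2
      have h3 : connectedComponentIn Lᶜ q = connectedComponentIn Lᶜ w :=
        connectedComponentIn_eq hw1
      have h4 : connectedComponentIn Lᶜ z = connectedComponentIn Lᶜ w :=
        connectedComponentIn_eq hw2
      apply hq.2
      rw [h4, ← h3]
      exact h2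

end Pool.Agent.W924.QJ
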